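import Mathlib

namespace Pool.Agent.P.MP_4cdbfb_co.PR

open SimpleGraph

/-- An odd closed walk, as a permutation of a finite set with an odd number of elements. -/
structure Cyc {V : Type} (G : SimpleGraph V) where
  /-- size -/
  n : ℕ
  /-- successor -/
  σ : Equiv.Perm (Fin n)
  /-- vertices -/
  v : Fin n → V
  odd : Odd n
  adj : ∀ i, G.Adj (v i) (v (σ i))

theorem exists_cyc {V : Type} {G : SimpleGraph V} (h : ¬ G.Colorable 2) : Nonempty (Cyc G) := by
  rw [two_colorable_iff_forall_loop_even] at h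
  push Not at h
  obtain ⟨u, w, hw⟩ := h
  rw [Nat.not_even_iff_odd] at hw
  obtain ⟨m, hm⟩ : ∃ m, w.length = m + 1 := ⟨w.length - 1, by obtain ⟨k, hk⟩ := hw; omega⟩
  refine ⟨⟨m + 1, finRotate _, fun i => w.getVert i, hm ▸ hw, fun i => ?_⟩⟩
  have := w.adj_getVert_succ (i := i) (by have := i.2; omega)
  by_cases q : i = Fin.last m
  · subst q
    rw [finRotate_last]
    rw [Fin.val_last, ← hm, w.getVert_length] at this
    simpa using this
  · rw [coe_finRotate_of_ne_last q]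
    exact this

/-- The direction of a step between two of three colours. -/
def dl (a b : Fin 3) : ZMod 4 := if b = a + 1 then 1 else -1

/-- Twice the indicator of being different. -/
def DD (a b : Fin 3) : ZMod 4 := if a = b then 0 else 2

theorem dl_add : ∀ a b c : Fin 3, a ≠ b → b ≠ c → DD a c = dl a b + dl b c := by decide

theorem dl_neg : ∀ a b : Fin 3, a ≠ b → dl b a = -dl a b := by decide

theorem dl_two : ∀ a b : Fin 3, 2 * dl a b = 2 := by decide

theorem DD_add : ∀ a b c d : Fin 3, a ≠ d → b ≠ d → c ≠ d → DD a c = DD a b + DD b c := by decide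

theorem DD_two : ∀ a b : Fin 3, DD a b + DD a b = 0 := by decide

variable {V W : Type} {G : SimpleGraph V} {H : SimpleGraph W}

/-- The parity of a map on an odd closed walk. -/
def Cyc.par (C : Cyc G) (f : V → Fin 3) : ZMod 4 := ∑ i, DD (f (C.v i)) (f (C.v (C.σ (C.σ i))))

theorem Cyc.par_eq (C : Cyc G) {f g : V → Fin 3} (h : ∀ a b, G.Adj a b → f a ≠ g b) :
    C.par f = C.par g := by
  have key : ∀ f g : V → Fin 3, (∀ a b, G.Adj a b → f a ≠ g b) → C.par f =
      ∑ i, dl (f (C.v i)) (g (C.v (C.σ i))) + ∑ i, dl (g (C.v i)) (f (C.v (C.σ i))) := by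
    intro f g h
    rw [← Equiv.sum_comp C.σ fun i => dl (g (C.v i)) (f (C.v (C.σ i))), ← Finset.sum_add_distrib]
    exact Finset.sum_congr rfl fun i _ =>
      dl_add _ _ _ (h _ _ (C.adj i)) (h _ _ (C.adj _).symm).symm
  rw [key f g h, key g f fun a b e => (h b a e.symm).symm, add_comm]

theorem exists_even (hG : ¬ G.Colorable 3) {f g : V → Fin 3}
    (h : ∀ a b, G.Adj a b → f a ≠ g b) : ∃ C : Cyc G, C.par f = 0 := by
  classical
  let X : V → Prop := fun a => ∃ b, G.Adj a b ∧ f a = f b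
  let G' : SimpleGraph V :=
    { Adj := fun a b => G.Adj a b ∧ X a ∧ X b
      symm := ⟨fun _ _ e => ⟨e.1.symm, e.2.2, e.2.1⟩⟩
      loopless := ⟨fun _ e => e.1.ne rfl⟩ }
  have h2 : ¬ G'.Colorable 2 := by
    rintro ⟨s⟩
    refine hG ⟨Coloring.mk (fun a => if X a ∧ s a = 0 then g a else f a) fun {a b} e => ?_⟩
    split_ifs with p q q
    · exact absurd (p.2.trans q.2.symm) (s.valid ⟨e, p.1, q.1⟩)
    · exact (h b a e.symm).symm
    · exact h a b e
    · intro r
      have xa : X a := ⟨b, e, r⟩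
      have xb : X b := ⟨a, e.symm, r.symm⟩
      have t : ∀ x y : Fin 2, x ≠ 0 → y ≠ 0 → x = y := by decide
      exact s.valid ⟨e, xa, xb⟩ (t _ _ (fun k => p ⟨xa, k⟩) fun k => q ⟨xb, k⟩)
  obtain ⟨C⟩ := exists_cyc h2
  refine ⟨⟨C.n, C.σ, C.v, C.odd, fun i => (C.adj i).1⟩, ?_⟩
  have key : ∀ i, DD (f (C.v i)) (f (C.v (C.σ (C.σ i)))) =
      DD (f (C.v i)) (f (C.v (C.σ i))) + DD (f (C.v (C.σ i))) (f (C.v (C.σ (C.σ i)))) := by
    intro i
    obtain ⟨b, b1, b2⟩ := (C.adj i).2.2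
    exact DD_add _ _ _ (g (C.v (C.σ i))) (h _ _ (C.adj i).1) (b2 ▸ h _ _ b1.symm)
      (h _ _ (C.adj _).1.symm)
  simp only [Cyc.par, key]
  rw [Finset.sum_add_distrib, Equiv.sum_comp C.σ fun i => DD (f (C.v i)) (f (C.v (C.σ i))),
    ← Finset.sum_add_distrib]
  exact Finset.sum_eq_zero fun i _ => DD_two _ _

theorem torus (C : Cyc G) (D : Cyc H) (φ : V → W → Fin 3)
    (h : ∀ a a' b b', G.Adj a a' → H.Adj b b' → φ a b ≠ φ a' b')
    (h1 : ∀ a, D.par (φ a) = 0) (h2 : ∀ b, C.par (fun a => φ a b) = 0) : False := by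
  let α : Fin C.n → Fin D.n → ZMod 4 := fun i j =>
    dl (φ (C.v i) (D.v j)) (φ (C.v (C.σ i)) (D.v (D.σ j)))
  let β : Fin C.n → Fin D.n → ZMod 4 := fun i j =>
    dl (φ (C.v i) (D.v (D.σ j))) (φ (C.v (C.σ i)) (D.v j))
  have e1 : ∀ j, ∑ i, α i j + ∑ i, β i j = 0 := fun j => by
    rw [← h2 (D.v j), ← Equiv.sum_comp C.σ fun i => β i j, ← Finset.sum_add_distrib]
    exact Finset.sum_congr rfl fun i _ =>
      (dl_add _ _ _ (h _ _ _ _ (C.adj i) (D.adj j)) (h _ _ _ _ (C.adj _) (D.adj j).symm)).symm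
  have e2 : ∀ i, ∑ j, α i j - ∑ j, β i j = 0 := fun i => by
    rw [← h1 (C.v i), ← Equiv.sum_comp D.σ fun j => β i j, ← Finset.sum_sub_distrib]
    refine Finset.sum_congr rfl fun j _ => ?_
    have q := h _ _ _ _ (C.adj i) (D.adj (D.σ j)).symm
    rw [dl_add _ _ _ (h _ _ _ _ (C.adj i) (D.adj j)) q.symm, dl_neg _ _ q, sub_eq_add_neg]
  have e3 : ∑ i, ∑ j, α i j + ∑ i, ∑ j, β i j = 0 := by
    rw [Finset.sum_comm, Finset.sum_comm (f := β), ← Finset.sum_add_distrib]
    exact Finset.sum_eq_zero fun j _ => e1 j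
  have e4 : ∑ i, ∑ j, α i j - ∑ i, ∑ j, β i j = 0 := by
    rw [← Finset.sum_sub_distrib]
    exact Finset.sum_eq_zero fun i _ => e2 i
  have e5 : 2 * ∑ i, ∑ j, α i j = 0 := by linear_combination e3 + e4
  simp only [Finset.mul_sum, α, dl_two, Finset.sum_const, Finset.card_univ, Fintype.card_fin,
    nsmul_eq_mul] at e5
  obtain ⟨s, hs⟩ := C.odd
  obtain ⟨t, ht⟩ := D.odd
  rw [hs, ht] at e5
  push_cast at e5
  have e6 : (4 : ZMod 4) = 0 := by decide
  have e7 : (2 : ZMod 4) = 0 := by linear_combination e5 - (2 * s * t + s + t) * e6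
  exact absurd e7 (by decide)

theorem exists_all (hG : G.Preconnected) (nG : ¬ G.Colorable 3) (nH : ¬ H.Colorable 3)
    (φ : V → W → Fin 3) (h : ∀ a a' b b', G.Adj a a' → H.Adj b b' → φ a b ≠ φ a' b') :
    ∃ D : Cyc H, ∀ a, D.par (φ a) = 0 := by
  obtain ⟨C⟩ := exists_cyc fun q : G.Colorable 2 => nG (q.mono (by norm_num))
  have i : Fin C.n := ⟨0, C.odd.pos⟩
  obtain ⟨D, hD⟩ := exists_even nH fun b b' e => h _ _ b b' (C.adj i) e
  refine ⟨D, fun a => ?_⟩
  have r := (reachable_iff_reflTransGen _ _).mp (hG (C.v i) a)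
  induction r with
  | refl => exact hD
  | tail _ e ih => rw [← ih, D.par_eq fun b b' q => h _ _ b b' e q]

/-- The theorem of El-Zahar and Sauer. -/
theorem ezs (φ : V → W → Fin 3) (h : ∀ a a' b b', G.Adj a a' → H.Adj b b' → φ a b ≠ φ a' b') :
    G.Colorable 3 ∨ H.Colorable 3 := by
  by_contra q
  rw [not_or, colorable_iff_forall_connectedComponent, colorable_iff_forall_connectedComponent,
    not_forall, not_forall] at q
  obtain ⟨⟨c, hc⟩, d, hd⟩ := q
  have h' : ∀ a a' b b', c.toSimpleGraph.Adj a a' → d.toSimpleGraph.Adj b b' →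
      φ a b ≠ φ a' b' := fun a a' b b' e e' => h _ _ _ _ e e'
  obtain ⟨D, hD⟩ := exists_all c.connected_toSimpleGraph.preconnected hc hd
    (fun a b => φ a b) h'
  obtain ⟨C, hC⟩ := exists_all d.connected_toSimpleGraph.preconnected hd hc
    (fun b a => φ a b) fun b b' a a' e e' => h' _ _ _ _ e' e
  exact torus C D (fun a b => φ a b) h' hD hC

theorem small {k : ℕ} (hk : k ≤ 3) (φ : V → W → Fin k)
    (h : ∀ a a' b b', G.Adj a a' → H.Adj b b' → φ a b ≠ φ a' b') :
    G.Colorable k ∨ H.Colorable k := by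
  interval_cases k
  · by_contra q
    rw [not_or, colorable_zero_iff, colorable_zero_iff, not_isEmpty_iff, not_isEmpty_iff] at q
    obtain ⟨⟨a⟩, ⟨b⟩⟩ := q
    exact (φ a b).elim0
  · by_cases q : ∃ a a', G.Adj a a'
    · obtain ⟨a, a', e⟩ := q
      exact Or.inr ⟨Coloring.mk (fun _ => 0) fun {b b'} e' =>
        absurd (Subsingleton.elim _ _) (h _ _ _ _ e e')⟩
    · exact Or.inl ⟨Coloring.mk (fun _ => 0) fun {a a'} e => absurd ⟨a, a', e⟩ q⟩
  · by_contra q
    rw [not_or] at q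
    obtain ⟨C⟩ := exists_cyc q.1
    obtain ⟨D⟩ := exists_cyc q.2
    let ψ : Fin C.n × Fin D.n → ZMod 2 := fun z => φ (C.v z.1) (D.v z.2)
    have t : ∀ x y : ZMod 2, x ≠ y → y = x + 1 := by decide
    have e1 : ∀ z, ψ (C.σ.prodCongr D.σ z) = ψ z + 1 := fun z =>
      t _ _ (h _ _ _ _ (C.adj z.1) (D.adj z.2))
    have e2 := Equiv.sum_comp (C.σ.prodCongr D.σ) ψ
    simp only [e1, Finset.sum_add_distrib, add_eq_left, Finset.sum_const, Finset.card_univ,
      Fintype.card_prod, Fintype.card_fin, nsmul_eq_mul, mul_one] at e2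
    rw [ZMod.natCast_eq_zero_iff, ← even_iff_two_dvd, ← Nat.not_odd_iff_even] at e2
    exact e2 (C.odd.mul D.odd)
  · exact ezs φ h

/-- Lower bound for the chromatic number of a product. -/
theorem lower (n : ℕ) (hG : (n : ℕ∞) ≤ G.chromaticNumber) (hH : (n : ℕ∞) ≤ H.chromaticNumber) :
    min (n : ℕ∞) 4 ≤ (SimpleGraph.comap (Prod.fst : V × W → V) G ⊓
      SimpleGraph.comap (Prod.snd : V × W → W) H).chromaticNumber := by
  by_contra q
  rw [not_le, lt_min_iff] at q
  obtain ⟨k, hk⟩ := ENat.ne_top_iff_exists.mp q.1.ne_top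
  obtain ⟨s⟩ := chromaticNumber_le_iff_colorable.mp hk.ge
  rw [← hk] at q
  have k3 : k ≤ 3 := by
    have : k < 4 := by exact_mod_cast q.2
    omega
  rcases small (G := G) (H := H) k3 (fun a b => s (a, b))
    (fun a a' b b' e e' => s.valid ⟨e, e'⟩) with r | r
  · exact absurd (hG.trans r.chromaticNumber_le) (not_le.mpr q.1)
  · exact absurd (hH.trans r.chromaticNumber_le) (not_le.mpr q.1)

end Pool.Agent.P.MP_4cdbfb_co.PR
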