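import Mathlib

namespace Pool.Agent.P.MP_4cdbfb_co.PR

open Finset

/-- The plane lattice. -/
abbrev Pl := ℤ × ℤ

/-- Greedy colouring in the order given by the priority `π`, for the moves in `E`. -/
noncomputable def gr (E : Finset Pl) (π : Pl → ℕ) (z : Pl) : ℕ :=
  sInf {k | ∀ e ∈ E, ∀ _ : π (z + e) < π z, gr E π (z + e) ≠ k}
termination_by π z

theorem gr_ne (E : Finset Pl) (π : Pl → ℕ) (z : Pl) {e : Pl} (he : e ∈ E)
    (h : π (z + e) < π z) : gr E π (z + e) ≠ gr E π z := by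
  have hn : {k | ∀ e ∈ E, ∀ _ : π (z + e) < π z, gr E π (z + e) ≠ k}.Nonempty := by
    obtain ⟨k, hk⟩ := Infinite.exists_notMem_finset (E.image fun e => gr E π (z + e))
    exact ⟨k, fun e he _ q => hk (mem_image.mpr ⟨e, he, q⟩)⟩
  have := Nat.sInf_mem hn
  rw [← gr] at this
  exact this e he h

theorem gr_lt (E : Finset Pl) (π : Pl → ℕ) (z : Pl) {k : ℕ} (h : k < gr E π z) :
    ∃ e ∈ E, π (z + e) < π z ∧ gr E π (z + e) = k := by
  rw [gr] at h
  have := Nat.notMem_of_lt_sInf h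
  simpa using this

theorem gr_le (E : Finset Pl) (π : Pl → ℕ) (z : Pl) (T : Finset ℕ)
    (h : ∀ e ∈ E, π (z + e) < π z → gr E π (z + e) ∈ T) : gr E π z ≤ T.card := by
  rw [← card_range (gr E π z)]
  refine card_le_card fun k hk => ?_
  obtain ⟨e, he, h1, h2⟩ := gr_lt E π z (mem_range.mp hk)
  exact h2 ▸ h e he h1

theorem gr_proper (E : Finset Pl) (hE : ∀ e ∈ E, -e ∈ E) (π : Pl → ℕ) (z : Pl) {e : Pl}
    (he : e ∈ E) (h : π z ≠ π (z + e)) : gr E π z ≠ gr E π (z + e) := by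
  rcases lt_or_gt_of_ne h with h | h
  · have := gr_ne E π (z + e) (hE e he) (by simpa using h)
    simpa using this
  · exact (gr_ne E π z he h).symm

/-- Two patterns agree in the windows of radius `r` around `z` and `z'`. -/
def Ag {A : Type} (r : ℕ) (c c' : Pl → A) (z z' : Pl) : Prop :=
  ∀ w : Pl, |w.1| ≤ r → |w.2| ≤ r → c (z + w) = c' (z' + w)

theorem Ag.move {A : Type} {r s : ℕ} {c c' : Pl → A} {z z' : Pl} (h : Ag r c c' z z') (t : Pl)
    (h1 : |t.1| + s ≤ r) (h2 : |t.2| + s ≤ r) : Ag s c c' (z + t) (z' + t) := by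
  intro w w1 w2
  rw [add_assoc, add_assoc]
  refine h _ ?_ ?_
  · exact (abs_add_le _ _).trans (by linarith)
  · exact (abs_add_le _ _).trans (by linarith)

theorem gr_ag (E : Finset Pl) (ρ : ℕ) (hE : ∀ e ∈ E, |e.1| ≤ ρ ∧ |e.2| ≤ ρ) (π π' : Pl → ℕ)
    (m : ℕ) : ∀ z z', π z < m → Ag (m * ρ) π π' z z' → gr E π z = gr E π' z' := by
  induction m with
  | zero => intro z z' h; omega
  | succ m ih =>
    intro z z' h a
    have hr : (0 : ℤ) ≤ m * ρ := by positivity
    have a0 : π z = π' z' := by simpa using a 0 (by simp) (by simp)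
    have a1 : ∀ e ∈ E, π (z + e) = π' (z' + e) := fun e he =>
      a e ((hE e he).1.trans (by push_cast; linarith)) ((hE e he).2.trans (by push_cast; linarith))
    have a2 : ∀ e ∈ E, π (z + e) < π z → gr E π (z + e) = gr E π' (z' + e) := fun e he q =>
      ih _ _ (by omega) (a.move e (by push_cast; linarith [(hE e he).1])
        (by push_cast; linarith [(hE e he).2]))
    rw [gr, gr.eq_1 E π' z']
    congr 1
    ext k
    refine forall₂_congr fun e he => ?_
    rw [← a0, ← a1 e he]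
    exact forall_congr' fun q => by rw [a2 e he q]

/-- A local rule. -/
def Loc {A B : Type} (F : (Pl → A) → Pl → B) : Prop :=
  ∃ r : ℕ, ∀ c c' z z', Ag r c c' z z' → F c z = F c' z'

theorem Ag.mono {A : Type} {r s : ℕ} {c c' : Pl → A} {z z' : Pl} (h : Ag r c c' z z')
    (hs : s ≤ r) : Ag s c c' z z' := fun w w1 w2 =>
  h w (w1.trans (by exact_mod_cast hs)) (w2.trans (by exact_mod_cast hs))

theorem loc_id {A : Type} : Loc fun (c : Pl → A) z => c z :=
  ⟨0, fun c c' z z' h => by simpa using h 0 (by simp) (by simp)⟩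

theorem loc_const {A B : Type} (b : B) : Loc fun (_ : Pl → A) _ => b :=
  ⟨0, fun _ _ _ _ _ => rfl⟩

theorem Loc.shift {A B : Type} {F : (Pl → A) → Pl → B} (h : Loc F) (t : Pl) :
    Loc fun c z => F c (z + t) := by
  obtain ⟨r, hr⟩ := h
  refine ⟨r + t.1.natAbs + t.2.natAbs, fun c c' z z' a => hr _ _ _ _ (a.move t ?_ ?_)⟩
  · push_cast
    linarith [abs_nonneg t.2]
  · push_cast
    linarith [abs_nonneg t.1]

theorem Loc.two {A B C D : Type} (g : B → C → D) {F : (Pl → A) → Pl → B}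
    {G : (Pl → A) → Pl → C} (h : Loc F) (h' : Loc G) : Loc fun c z => g (F c z) (G c z) := by
  obtain ⟨r, hr⟩ := h
  obtain ⟨s, hs⟩ := h'
  refine ⟨r + s, fun c c' z z' a => ?_⟩
  simp only [hr _ _ _ _ (a.mono (by omega)), hs _ _ _ _ (a.mono (by omega))]

theorem Loc.one {A B D : Type} (g : B → D) {F : (Pl → A) → Pl → B} (h : Loc F) :
    Loc fun c z => g (F c z) := Loc.two (fun x _ => g x) h h

theorem loc_ex {A ι : Type} (E : Finset ι) (F : ι → (Pl → A) → Pl → Prop)
    (h : ∀ e, Loc (F e)) : Loc fun c z => ∃ e ∈ E, F e c z := by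
  classical
  induction E using Finset.induction_on with
  | empty => simpa using loc_const False
  | insert a E _ ih => simpa using Loc.two Or (h a) ih

theorem Loc.gr {A : Type} (E : Finset Pl) (ρ : ℕ) (hE : ∀ e ∈ E, |e.1| ≤ ρ ∧ |e.2| ≤ ρ) (N : ℕ)
    {π : (Pl → A) → Pl → ℕ} (h : Loc π) (hb : ∀ c z, π c z < N) :
    Loc fun c => gr E (π c) := by
  obtain ⟨r, hr⟩ := h
  refine ⟨N * ρ + r, fun c c' z z' a => gr_ag E ρ hE _ _ N _ _ (hb _ _) fun w w1 w2 => ?_⟩
  refine hr _ _ _ _ (a.move w ?_ ?_)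
  · push_cast at w1 ⊢
    linarith
  · push_cast at w2 ⊢
    linarith

/-- The four diagonal moves. -/
def E4 : Finset Pl := {(1, 1), (1, -1), (-1, 1), (-1, -1)}

/-- The eight moves for which the input pattern is proper. -/
def E8 : Finset Pl := {(1, 1), (1, -1), (-1, 1), (-1, -1), (3, 1), (3, -1), (-3, 1), (-3, -1)}

variable {K : ℕ}

/-- A maximal independent set for the eight moves. -/
def MM (c : Pl → Fin K) (z : Pl) : Prop := gr E8 (fun w => (c w : ℕ)) z = 0

/-- The set that is coloured first. -/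
def II (c : Pl → Fin K) (z : Pl) : Prop := MM c z ∨ MM c (z + (-2, 0))

/-- Points within `k` steps of a point with two neighbours in `II`. -/
def SS (c : Pl → Fin K) : ℕ → Pl → Prop
  | 0, z => ¬ II c z ∧ ∃ e ∈ E4, ∃ e' ∈ E4, e ≠ e' ∧ II c (z + e) ∧ II c (z + e')
  | k + 1, z => SS c k z ∨ (¬ II c z ∧ ∃ e ∈ E4, SS c k (z + e))

open Classical in
/-- The number of levels below `k` that contain the point. -/
noncomputable def LL (c : Pl → Fin K) : ℕ → Pl → ℕ
  | 0, _ => 0
  | k + 1, z => LL c k z + if SS c k z then 1 else 0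

open Classical in
/-- The priority of the final greedy colouring. -/
noncomputable def pp (c : Pl → Fin K) (z : Pl) : ℕ :=
  if II c z then 0 else 1 + K * LL c 4 z + c z

theorem loc_MM : Loc (MM (K := K)) :=
  Loc.one (· = 0) (Loc.gr E8 3 (by decide) K (Loc.one Fin.val loc_id) fun c z => (c z).2)

theorem loc_II : Loc (II (K := K)) := Loc.two Or loc_MM (loc_MM.shift _)

theorem loc_SS (k : ℕ) : Loc fun (c : Pl → Fin K) => SS c k := by
  induction k with
  | zero =>
    exact Loc.two (fun x y => ¬ x ∧ y) loc_II (loc_ex _ _ fun e => loc_ex _ _ fun e' =>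
      Loc.two (fun x y => e ≠ e' ∧ x ∧ y) (loc_II.shift e) (loc_II.shift e'))
  | succ k ih =>
    exact Loc.two Or ih (Loc.two (fun x y => ¬ x ∧ y) loc_II (loc_ex _ _ fun e => ih.shift e))

open Classical in
theorem loc_LL (k : ℕ) : Loc fun (c : Pl → Fin K) => LL c k := by
  induction k with
  | zero => exact loc_const 0
  | succ k ih => exact Loc.two (fun x (y : Prop) => x + if y then 1 else 0) ih (loc_SS k)

open Classical in
theorem loc_pp : Loc (pp (K := K)) :=
  Loc.two (fun (x : Prop) y => if x then 0 else y) loc_II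
    (Loc.two (fun x (y : Fin K) => 1 + K * x + y) (loc_LL 4) loc_id)

theorem LL_le (c : Pl → Fin K) (k : ℕ) (z : Pl) : LL c k z ≤ k := by
  induction k with
  | zero => exact le_rfl
  | succ k ih =>
    rw [LL]
    split_ifs <;> omega

theorem pp_lt (c : Pl → Fin K) (z : Pl) : pp c z < 5 * K + 1 := by
  have h1 := Nat.mul_le_mul_left K (LL_le c 4 z)
  have h2 := (c z).2
  rw [pp]
  split_ifs <;> omega

theorem SS_not (c : Pl → Fin K) (k : ℕ) (z : Pl) (h : SS c k z) : ¬ II c z := by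
  induction k with
  | zero => exact h.1
  | succ k ih => exact h.elim ih fun h => h.1

theorem SS_step (c : Pl → Fin K) (z : Pl) (h0 : ¬ SS c 0 z) (h4 : SS c 4 z) :
    ∃ e ∈ E4, ¬ II c (z + e) ∧ LL c 4 z < LL c 4 (z + e) := by
  have up : ∀ k w, SS c k w → SS c (k + 1) w := fun _ _ h => Or.inl h
  have key : ∀ k, ¬ SS c k z → SS c (k + 1) z → ∃ e ∈ E4, SS c k (z + e) := fun k a b =>
    (b.resolve_left a).2
  by_cases h1 : SS c 1 z
  · obtain ⟨e, he, q⟩ := key 0 h0 h1
    refine ⟨e, he, SS_not _ _ _ q, ?_⟩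
    simp only [LL, h0, q, up _ _ q, up _ _ (up _ _ q), up _ _ (up _ _ (up _ _ q)), if_true, if_false]
    split_ifs <;> omega
  by_cases h2 : SS c 2 z
  · obtain ⟨e, he, q⟩ := key 1 h1 h2
    refine ⟨e, he, SS_not _ _ _ q, ?_⟩
    simp only [LL, h0, h1, q, up _ _ q, up _ _ (up _ _ q), if_true, if_false]
    split_ifs <;> omega
  by_cases h3 : SS c 3 z
  · obtain ⟨e, he, q⟩ := key 2 h2 h3
    refine ⟨e, he, SS_not _ _ _ q, ?_⟩
    simp only [LL, h0, h1, h2, q, up _ _ q, if_true, if_false]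
    split_ifs <;> omega
  · obtain ⟨e, he, q⟩ := key 3 h3 h4
    refine ⟨e, he, SS_not _ _ _ q, ?_⟩
    simp only [LL, h0, h1, h2, h3, q, if_true, if_false]
    split_ifs <;> omega

section valid

variable {c : Pl → Fin K} (hc : ∀ z, ∀ e ∈ E8, c z ≠ c (z + e))
include hc

theorem MM_ind {z e : Pl} (he : e ∈ E8) (h : MM c z) : ¬ MM c (z + e) := fun h' =>
  gr_proper E8 (by decide) (fun w => (c w : ℕ)) z he (fun q => hc z e he (Fin.ext q))
    (h.trans h'.symm)

theorem II_ind {z e : Pl} (he : e ∈ E4) (h : II c z) : ¬ II c (z + e) := by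
  have a : ∀ e ∈ E4, e ∈ E8 ∧ e + (-2, 0) ∈ E8 ∧ e + (2, 0) ∈ E8 := by decide
  obtain ⟨a1, a2, a3⟩ := a e he
  rintro (h' | h') <;> rcases h with h | h
  · exact MM_ind hc a1 h h'
  · refine MM_ind hc a3 h ?_
    convert h' using 1
    ext <;> simp
    ring
  · exact MM_ind hc a2 h (by rwa [← add_assoc])
  · exact MM_ind hc a1 h (by rwa [add_right_comm])

theorem SS_all {z : Pl} (hz : ¬ II c z) : SS c 4 z := by
  have up : ∀ k w, SS c k w → SS c (k + 1) w := fun _ _ h => Or.inl h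
  have step : ∀ k w w' e, e ∈ E4 → w' = w + e → ¬ II c w → SS c k w' → SS c (k + 1) w :=
    fun k w w' e he q a b => Or.inr ⟨a, e, he, q ▸ b⟩
  have sink : ∀ w w1 w2 e e', e ∈ E4 → e' ∈ E4 → e ≠ e' → w1 = w + e → w2 = w + e' →
      ¬ II c w → II c w1 → II c w2 → SS c 0 w :=
    fun w w1 w2 e e' he he' ne q q' a b b' => ⟨a, e, he, e', he', ne, q ▸ b, q' ▸ b'⟩
  have main : ∀ p, MM c p → ∀ s : ℤ, s = 1 ∨ s = -1 → SS c 0 (p + (1, s)) ∧
      SS c 2 (p + (-1, s)) ∧ SS c 2 (p + (3, s)) ∧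
      (¬ II c (p + (-3, s)) → SS c 4 (p + (-3, s))) := by
    intro p hp s hs
    have m : ∀ a : ℤ, a = 1 ∨ a = -1 → (a, s) ∈ E4 ∧ (a, -s) ∈ E4 := by
      rcases hs with rfl | rfl <;> rintro a (rfl | rfl) <;> decide
    obtain ⟨m1, m2⟩ := m 1 (Or.inl rfl)
    obtain ⟨m3, m4⟩ := m (-1) (Or.inr rfl)
    have s0 : s ≠ -s := by omega
    have i1 : II c p := Or.inl hp
    have i2 : II c (p + (2, 0)) := Or.inr (by convert hp using 1; ext <;> simp)
    have b1 : SS c 0 (p + (1, s)) := sink _ _ _ _ _ m4 m2 (by simp) (by ext <;> simp)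
      (by ext <;> simp; ring) (II_ind hc m1 i1) i1 i2
    have n2 := II_ind hc m3 i1
    have b2 : SS c 2 (p + (-1, s)) := by
      by_cases q : II c (p + (0, 2 * s))
      · exact up _ _ (up _ _ (sink _ _ _ _ _ m2 m1 (by simpa using s0.symm) (by ext <;> simp)
          (by ext <;> simp; ring) n2 i1 q))
      · exact step _ _ _ _ m1 (by ext <;> simp; ring) n2
          (step _ _ _ _ m2 (by ext <;> simp; ring) q b1)
    have n3 : ¬ II c (p + (3, s)) := by
      convert II_ind hc m1 i2 using 2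
      ext <;> simp
      ring
    have b3 : SS c 2 (p + (3, s)) := by
      by_cases q : II c (p + (2, 2 * s))
      · exact up _ _ (up _ _ (sink _ _ _ _ _ m4 m3 (by simpa using s0.symm)
          (by ext <;> simp; ring) (by ext <;> simp <;> ring) n3 i2 q))
      · exact step _ _ _ _ m3 (by ext <;> simp <;> ring) n3
          (step _ _ _ _ m4 (by ext <;> simp <;> ring) q b1)
    refine ⟨b1, b2, b3, fun n4 => ?_⟩
    by_cases q : II c (p + (-2, 0))
    · by_cases q' : II c (p + (-2, 2 * s))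
      · exact up _ _ (up _ _ (up _ _ (up _ _ (sink _ _ _ _ _ m2 m1 (by simpa using s0.symm)
          (by ext <;> simp; ring) (by ext <;> simp <;> ring) n4 q q'))))
      · exact step _ _ _ _ m1 (by ext <;> simp <;> ring) n4
          (step _ _ _ _ m2 (by ext <;> simp <;> ring) q' b2)
    · exact step _ _ _ _ m2 (by ext <;> simp; ring) n4
        (step _ _ _ _ m1 (by ext <;> simp; ring) q b2)
  obtain ⟨e, he, -, h⟩ := gr_lt E8 (fun w => (c w : ℕ)) z
    (Nat.pos_of_ne_zero fun q => hz (Or.inl q))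
  have hz' : z = z + e + -e := by simp
  obtain ⟨a1, a2, a3, a4⟩ := main _ h 1 (Or.inl rfl)
  obtain ⟨b1, b2, b3, b4⟩ := main _ h (-1) (Or.inr rfl)
  rw [hz'] at hz ⊢
  generalize z + e = p at *
  simp only [E8, mem_insert, mem_singleton] at he
  rcases he with rfl | rfl | rfl | rfl | rfl | rfl | rfl | rfl
  · exact up _ _ (up _ _ b2)
  · exact up _ _ (up _ _ a2)
  · exact up _ _ (up _ _ (up _ _ (up _ _ b1)))
  · exact up _ _ (up _ _ (up _ _ (up _ _ a1)))
  · exact b4 hz
  · exact a4 hz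
  · exact up _ _ (up _ _ b3)
  · exact up _ _ (up _ _ a3)

theorem pp_ne (z : Pl) {e : Pl} (he : e ∈ E4) : pp c z ≠ pp c (z + e) := by
  have a : ∀ e ∈ E4, e ∈ E8 := by decide
  have h1 := hc z e (a e he)
  unfold pp
  split_ifs with q q' q'
  · exact absurd q' (II_ind hc he q)
  · omega
  · omega
  · intro h
    have h2 : (K * LL c 4 z + c z) % K = (K * LL c 4 (z + e) + c (z + e)) % K := by
      congr 1
      omega
    simp only [Nat.mul_add_mod, Nat.mod_eq_of_lt (Fin.is_lt _)] at h2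
    exact h1 (Fin.ext h2)

theorem gr_three (z : Pl) : gr E4 (pp c) z ≤ 3 := by
  classical
  have card : ∀ e ∈ E4, (E4.erase e).card = 3 := by decide
  have a : ∀ e ∈ E4, (∀ e' ∈ E4, pp c (z + e') < pp c z →
      ∃ e'' ∈ E4.erase e, gr E4 (pp c) (z + e'') = gr E4 (pp c) (z + e')) →
      gr E4 (pp c) z ≤ 3 := fun e he h =>
    (gr_le E4 _ z ((E4.erase e).image fun e => gr E4 (pp c) (z + e)) fun e' he' q =>
      mem_image.mpr (h e' he' q)).trans (card_image_le.trans (card e he).le)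
  have b : ∀ e ∈ E4, pp c z ≤ pp c (z + e) → gr E4 (pp c) z ≤ 3 := fun e he h =>
    a e he fun e' he' q => ⟨e', mem_erase.mpr ⟨by rintro rfl; omega, he'⟩, rfl⟩
  have zero : ∀ w, II c w → gr E4 (pp c) w = 0 := fun w hw =>
    Nat.le_zero.mp (gr_le E4 _ w ∅ fun e _ q => by simp [pp, hw] at q)
  by_cases q : II c z
  · rw [zero z q]
    omega
  by_cases h0 : SS c 0 z
  · obtain ⟨-, e, he, e', he', ne, i1, i2⟩ := h0
    refine a e he fun e'' he'' _ => ?_
    by_cases r : e'' = e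
    · exact ⟨e', mem_erase.mpr ⟨ne.symm, he'⟩, by rw [r, zero _ i1, zero _ i2]⟩
    · exact ⟨e'', mem_erase.mpr ⟨r, he''⟩, rfl⟩
  · obtain ⟨e, he, i1, i2⟩ := SS_step c z h0 (SS_all hc q)
    refine b e he ?_
    have h1 := Nat.mul_le_mul_left K (Nat.succ_le_of_lt i2)
    have h2 := (c z).2
    rw [pp, pp, if_neg q, if_neg i1]
    rw [Nat.mul_succ] at h1
    omega

end valid

/-- A local rule turns every pattern that is proper for the eight moves into a proper colouring
of the diagonal grid with four colours. -/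
theorem rule (K : ℕ) : ∃ (F : (Pl → Fin K) → Pl → Fin 4) (r : ℕ),
    (∀ c c' z z', Ag r c c' z z' → F c z = F c' z') ∧
    ∀ c, (∀ z, ∀ e ∈ E8, c z ≠ c (z + e)) → ∀ z, ∀ e ∈ E4, F c z ≠ F c (z + e) := by
  obtain ⟨r, hr⟩ := Loc.one (Fin.ofNat 4) (Loc.gr E4 1 (by decide) _ (loc_pp (K := K)) pp_lt)
  refine ⟨_, r, hr, fun c hc z e he h => ?_⟩
  have h1 := gr_three hc z
  have h2 := gr_three hc (z + e)
  have h3 := gr_proper E4 (by decide) (pp c) z he (pp_ne hc z he)
  have h4 := congrArg Fin.val h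
  simp only [Fin.val_ofNat] at h4
  omega

end Pool.Agent.P.MP_4cdbfb_co.PR
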