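import Pool.Agent.P.MP_4cdbfb_co.Final
import Pool.Agent.P.MP_4cdbfb_co.PR.Rule

namespace Pool.Agent.P.MP_4cdbfb_co.PR

open Pool.Agent.P.MP_4cdbfb_co.Z3

/-- The two Borsuk type graphs with a finer mesh: three steps in the first factor are allowed. -/
theorem strong (n : ℕ) :
    ∃ (V W : Type) (_ : Finite V) (_ : Finite W) (A : V → V → Prop) (B : W → W → Prop)
      (c : V → W → Fin 16), (∀ u v, A u v → A v u) ∧ (∀ u v, B u v → B v u) ∧
      (∀ u, ¬ A u u) ∧ (∀ u, ¬ B u u) ∧ (∀ f : V → Fin (n + 1), ∃ u v, A u v ∧ f u = f v) ∧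
      (∀ f : W → Fin (n + 1), ∃ u v, B u v ∧ f u = f v) ∧
      ∀ u0 u1 u2 u3 y y', A u0 u1 → A u1 u2 → A u2 u3 → B y y' → c u0 y ≠ c u3 y' := by
  obtain ⟨c, δ, d1, d2⟩ := exists_col (n + 1)
  obtain ⟨K, hK⟩ := exists_nat_gt (max 2 (6 * ((n : ℝ) + 1) / δ))
  have k2 : (2 : ℝ) < K := (le_max_left _ _).trans_lt hK
  have k0 : (0 : ℝ) < K := by linarith
  have k1 : 6 * ((n : ℝ) + 1) / K < δ := by
    have := (le_max_right _ _).trans_lt hK
    rw [div_lt_iff₀ d1] at this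
    rw [div_lt_iff₀ k0]
    linarith
  obtain ⟨V, i1, A, D, a1, a2, a3, a4, a5⟩ := exists_template (n + 1) K (by omega)
  obtain ⟨W, i2, B, Y, b2, b3, b4, b5⟩ := exists_template3 (n + 1) K (by exact_mod_cast k2.le)
  let P : V × W → XX (n + 1) := fun z =>
    (fun i => max (-1) (min 1 ((D i z.1 : ℝ) / K)), fun j h => (Y z.2 j h : ℝ) / (2 * K))
  have p1 : ∀ z, P z ∈ KK (n + 1) := by
    intro z
    obtain ⟨y1, y2, -, j, h, y4⟩ := b5 z.2
    refine ⟨fun i => abs_le.mpr ⟨le_max_left _ _, max_le (by norm_num) (min_le_left _ _)⟩, ?_,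
      fun j h => ⟨by positivity, ?_⟩, fun j h h' e => ?_, j, h, ?_⟩
    · obtain ⟨i, hi⟩ := a5 z.1
      refine ⟨i, ?_⟩
      have : (1 : ℝ) ≤ (D i z.1 : ℝ) / K := by
        rw [le_div_iff₀ k0, one_mul]
        exact_mod_cast hi
      simp only [P]
      rw [min_eq_left this, max_eq_right (by norm_num)]
    · simp only [P]
      rw [div_le_one (by positivity)]
      exact_mod_cast y1 j h
    · by_cases q : Y z.2 j h = 0
      · simp [P, q]
      · have : Y z.2 j h' = 0 := by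
          by_contra q'
          exact e (y2 j h h' q q')
        simp [P, this]
    · simp only [P, y4]
      push_cast
      exact div_self (by positivity)
  have p2 : ∀ u0 u1 u2 u3 y y', A u0 u1 → A u1 u2 → A u2 u3 → B y y' →
      c (P (u0, y)) ≠ c (P (u3, y')) := by
    intro u0 u1 u2 u3 y y' e1 e1' e1'' e2
    refine d2 _ (p1 _) _ (lt_of_le_of_lt ?_ k1)
    have n0 : 0 ≤ 6 * ((n : ℝ) + 1) / K := by positivity
    rw [norm_prod_le_iff, pi_norm_le_iff_of_nonneg n0, pi_norm_le_iff_of_nonneg n0]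
    refine ⟨fun i => ?_, fun j => (pi_norm_le_iff_of_nonneg n0).mpr fun h => ?_⟩
    · simp only [P, gam, Prod.fst_sub, Pi.sub_apply, Pi.neg_apply, sub_neg_eq_add, Real.norm_eq_abs]
      refine clamp_odd _ _ _ ?_
      rw [← add_div, abs_div, abs_of_pos k0, add_comm]
      refine div_le_div_of_nonneg_right ?_ k0.le
      have q1 := abs_le.mp (a4 i _ _ e1)
      have q2 := abs_le.mp (a4 i _ _ e1')
      have q3 := abs_le.mp (a4 i _ _ e1'')
      have q : |D i u0 + D i u3| ≤ 6 * ((n : ℤ) + 1) := by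
        push_cast at q1 q2 q3
        exact abs_le.mpr ⟨by linarith, by linarith⟩
      exact_mod_cast q
    · simp only [P, gam, Prod.snd_sub, Pi.sub_apply, Real.norm_eq_abs]
      have q1 : (Y y' j h : ℝ) ≤ Y y j (h - 1) + 2 := by exact_mod_cast (b4 _ _ e2 j h).1
      have q2 : (Y y j (h - 1) : ℝ) ≤ Y y' j h + 2 := by exact_mod_cast (b4 _ _ e2 j h).2
      rw [← sub_div, abs_div, abs_of_pos (show (0 : ℝ) < 2 * K by positivity),
        div_le_div_iff₀ (by positivity) k0]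
      have : |(Y y' j h : ℝ) - Y y j (h - 1)| ≤ 2 := abs_le.mpr ⟨by linarith, by linarith⟩
      nlinarith [mul_nonneg (Nat.cast_nonneg n : (0 : ℝ) ≤ n) k0.le]
  let q : Bool × Bool × Bool × Bool ≃ Fin 16 := Fintype.equivFinOfCardEq (by simp)
  refine ⟨V, W, i1, i2, A, fun u v => B u v ∨ B v u, fun u y => q (c (P (u, y))), a1,
    fun u v h => h.symm, a2, fun u h => b2 u (h.elim id id), a3, fun f => ?_,
    fun u0 u1 u2 u3 y y' e1 e2 e3 e4 => q.injective.ne ?_⟩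
  · obtain ⟨u, v, h1, h2⟩ := b3 f
    exact ⟨u, v, Or.inl h1, h2⟩
  · rcases e4 with e4 | e4
    · exact p2 _ _ _ _ _ _ e1 e2 e3 e4
    · exact (p2 _ _ _ _ _ _ (a1 _ _ e3) (a1 _ _ e2) (a1 _ _ e1) e4).symm

variable {V : Type}

/-- Walks that are infinite in both directions. -/
def Wk (A : V → V → Prop) (x : ℤ → V) : Prop := ∀ i, A (x i) (x (i + 1))

/-- The window of a walk that starts at time `a`. -/
def res (N : ℕ) (x : ℤ → V) (a : ℤ) : Fin (N + 1) → V := fun i => x (a + (i : ℕ))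

/-- The shift graph of windows can be coloured with `k` colours. -/
def Col (A : V → V → Prop) (N k : ℕ) : Prop :=
  ∃ φ : (Fin (N + 1) → V) → Fin k, ∀ x, Wk A x → φ (res N x 0) ≠ φ (res N x 1)

theorem Col.step {A : V → V → Prop} {N k : ℕ} (h : Col A (N + 1) k) : Col A N (2 ^ k) := by
  classical
  obtain ⟨φ, hφ⟩ := h
  let q : Set (Fin k) ≃ Fin (2 ^ k) := Fintype.equivFinOfCardEq (by simp)
  refine ⟨fun w => q {a | ∃ x, Wk A x ∧ res N x 0 = w ∧ φ (res (N + 1) x 0) = a},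
    fun x hx e => ?_⟩
  have e' := q.injective e
  have : φ (res (N + 1) x 0) ∈
      {a | ∃ x', Wk A x' ∧ res N x' 0 = res N x 1 ∧ φ (res (N + 1) x' 0) = a} :=
    e' ▸ ⟨x, hx, rfl, rfl⟩
  obtain ⟨x', h1, h2, h3⟩ := this
  have h4 : ∀ i : ℕ, i ≤ N → x' i = x (i + 1) := fun i hi => by
    have := congrFun h2 ⟨i, by omega⟩
    simpa [res, add_comm] using this
  let y : ℤ → V := fun i => if i ≤ N + 1 then x i else x' (i - 1)
  have y1 : Wk A y := by
    intro i
    simp only [y]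
    split_ifs with a b b
    · exact hx i
    · have : i = N + 1 := by omega
      rw [this, ← h4 N le_rfl]
      simpa using h1 N
    · omega
    · simpa using h1 (i - 1)
  have y2 : res (N + 1) y 0 = res (N + 1) x 0 := by
    funext i
    have := i.2
    simp only [res, y]
    rw [if_pos (by omega)]
  have y3 : res (N + 1) y 1 = res (N + 1) x' 0 := by
    funext i
    have := i.2
    simp only [res, y]
    split_ifs with a
    · rw [zero_add, h4 i (by omega), add_comm]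
    · congr 1
      ring
  exact hφ y y1 (by rw [y2, y3, h3])

theorem Col.base {A : V → V → Prop} (hs : ∀ u v, A u v → A v u) {k : ℕ} (h : Col A 0 k) :
    ∃ f : V → Fin k, ∀ u v, A u v → f u ≠ f v := by
  obtain ⟨φ, hφ⟩ := h
  refine ⟨fun v => φ fun _ => v, fun u v e => ?_⟩
  have := hφ (fun i => if i % 2 = 0 then u else v) fun i => by
    beta_reduce
    split_ifs with a b b
    · omega
    · exact e
    · exact hs _ _ e
    · omega
  convert this using 2 <;> funext i <;> simp [res]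

theorem col_down (N : ℕ) : ∀ k, ∃ m, ∀ (V : Type) (A : V → V → Prop),
    Col A N k → Col A 0 (m + 1) := by
  induction N with
  | zero =>
    exact fun k => ⟨k, fun V A ⟨φ, h⟩ =>
      ⟨fun w => (φ w).castSucc, fun x hx e => h x hx (Fin.castSucc_injective _ e)⟩⟩
  | succ N ih =>
    intro k
    obtain ⟨m, hm⟩ := ih (2 ^ k)
    exact ⟨m, fun V A h => hm V A h.step⟩

/-- The shift relation on windows. -/
def WR (A : V → V → Prop) (N : ℕ) (w w' : Fin (N + 1) → V) : Prop :=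
  ∃ x, Wk A x ∧ w = res N x 0 ∧ w' = res N x 1

theorem chi_WR {A : V → V → Prop} (hi : ∀ u, ¬ A u u) {N n : ℕ} (h : ¬ Col A N n) :
    (n : ℕ∞) ≤ (SimpleGraph.fromRel (WR A N)).chromaticNumber := by
  refine le_chi _ _ ?_ fun f => ?_
  · rintro w ⟨x, h1, h2, h3⟩
    have := congrFun (h2.symm.trans h3) 0
    simp only [res, Fin.val_zero, Nat.cast_zero, add_zero] at this
    exact hi (x 0) (by simpa [← this] using h1 0)
  · by_contra q
    exact h ⟨f, fun x hx e => q ⟨_, _, ⟨x, hx, rfl, rfl⟩, e⟩⟩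

theorem adj_WR {A : V → V → Prop} {N : ℕ} {w w' : Fin (N + 1) → V}
    (h : (SimpleGraph.fromRel (WR A N)).Adj w w') :
    ∃ x a s, Wk A x ∧ (s = 1 ∨ s = -1) ∧ w = res N x a ∧ w' = res N x (a + s) := by
  rcases ((SimpleGraph.fromRel_adj _ _ _).mp h).2 with ⟨x, h1, h2, h3⟩ | ⟨x, h1, h2, h3⟩
  · exact ⟨x, 0, 1, h1, Or.inl rfl, h2, h3⟩
  · exact ⟨x, 1, -1, h1, Or.inr rfl, h3, h2⟩

/-- Products with four colours of graphs of large chromatic number. -/
theorem four (n : ℕ) :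
    ∃ (V W : Type) (_ : Finite V) (_ : Finite W) (G : SimpleGraph V) (H : SimpleGraph W),
      (n : ℕ∞) ≤ G.chromaticNumber ∧ (n : ℕ∞) ≤ H.chromaticNumber ∧
      (SimpleGraph.comap (Prod.fst : V × W → V) G ⊓
        SimpleGraph.comap (Prod.snd : V × W → W) H).Colorable 4 := by
  obtain ⟨F, r, f1, f2⟩ := rule 16
  obtain ⟨m, hm⟩ := col_down (2 * r) n
  obtain ⟨V, W, i1, i2, A, B, c, a1, b1, a2, b2, a3, b3, hc⟩ := strong m
  refine ⟨_, _, inferInstance, inferInstance, SimpleGraph.fromRel (WR A (2 * r)),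
    SimpleGraph.fromRel (WR B (2 * r)), chi_WR a2 fun h => ?_, chi_WR b2 fun h => ?_, ?_⟩
  · obtain ⟨f, hf⟩ := (hm _ _ h).base a1
    obtain ⟨u, v, e1, e2⟩ := a3 f
    exact hf u v e1 e2
  · obtain ⟨f, hf⟩ := (hm _ _ h).base b1
    obtain ⟨u, v, e1, e2⟩ := b3 f
    exact hf u v e1 e2
  let cl : ℤ → Fin (2 * r + 1) := fun i => Fin.ofNat _ i.toNat
  have hcl : ∀ t : ℤ, |t| ≤ r → ((cl (r + t) : ℕ) : ℤ) = r + t := fun t ht => by
    obtain ⟨t1, t2⟩ := abs_le.mp ht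
    simp only [cl, Fin.val_ofNat]
    rw [Nat.mod_eq_of_lt (by omega)]
    omega
  have key : ∀ (x : ℤ → V) (y : ℤ → W) (a b : ℤ),
      F (fun t => c (res (2 * r) x a (cl t.1)) (res (2 * r) y b (cl t.2))) (r, r) =
        F (fun t => c (x t.1) (y t.2)) (a + r, b + r) := fun x y a b =>
    f1 _ _ _ _ fun w w1 w2 => by
      simp only [res, Prod.fst_add, Prod.snd_add, hcl _ w1, hcl _ w2, add_assoc]
  refine ⟨SimpleGraph.Coloring.mk
    (fun z => F (fun t => c (z.1 (cl t.1)) (z.2 (cl t.2))) (r, r)) fun {z z'} h => ?_⟩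
  obtain ⟨x, a, s, x1, x2, x3, x4⟩ := adj_WR h.1
  obtain ⟨y, b, t, y1, y2, y3, y4⟩ := adj_WR h.2
  rw [x3, x4, y3, y4, key, key]
  have w1 : ∀ j e : ℤ, e = 1 ∨ e = -1 → B (y j) (y (j + e)) := by
    rintro j e (rfl | rfl)
    · exact y1 j
    · exact b1 _ _ (by simpa using y1 (j + -1))
  have w3 : ∀ i e : ℤ, e = 1 ∨ e = -1 ∨ e = 3 ∨ e = -3 →
      ∃ u1 u2, A (x i) u1 ∧ A u1 u2 ∧ A u2 (x (i + e)) := by
    have back : ∀ i j, j + 1 = i → A (x i) (x j) := fun i j q => a1 _ _ (q ▸ x1 j)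
    have fw : ∀ i j, i + 1 = j → A (x i) (x j) := fun i j q => q ▸ x1 i
    rintro i e (rfl | rfl | rfl | rfl)
    · exact ⟨_, _, x1 i, back _ _ rfl, x1 i⟩
    · exact ⟨_, _, x1 i, back _ _ rfl, back _ _ (by ring)⟩
    · exact ⟨_, _, x1 i, x1 _, fw _ _ (by ring)⟩
    · exact ⟨x (i - 1), x (i - 2), back _ _ (by ring), back _ _ (by ring), back _ _ (by ring)⟩
  have e8 : ∀ e ∈ E8, (e.1 = 1 ∨ e.1 = -1 ∨ e.1 = 3 ∨ e.1 = -3) ∧ (e.2 = 1 ∨ e.2 = -1) := by
    decide
  have := f2 (fun t => c (x t.1) (y t.2)) (fun z e he => by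
    obtain ⟨u1, u2, q1, q2, q3⟩ := w3 z.1 e.1 (e8 e he).1
    exact hc _ _ _ _ _ _ q1 q2 q3 (w1 z.2 e.2 (e8 e he).2)) (a + r, b + r) (s, t) (by
      rcases x2 with rfl | rfl <;> rcases y2 with rfl | rfl <;> decide)
  convert this using 2
  ext <;> simp <;> ring

end Pool.Agent.P.MP_4cdbfb_co.PR
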